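import Pool.Agent.H500.KumI
import Pool.Agent.H500.KumCyc

set_option autoImplicit false
set_option linter.unusedSectionVars false

/-!
# Twisted Kummer theory over an open normal subgroup (helper401, for project TH of helper500)
-/

namespace Pool.Agent.H401.TH.TDens

open NumberField IsDedekindDomain Filter Topology
open Pool.Agent.W401.Cheb (GK IsFrob dens)
open Pool.Agent.W569.FM (OO GF)
open Pool.Agent.H500.Kum (val_add val_mul exists_pow pow_unique exists_root exists_prim
  dens_fin fin_mem cyc_surj exists_idem)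
open Pool.Agent.H500.KumI (AffI KJ exists_KJ)

section one

variable {E : Type} [Field E] [NumberField E] {r : ℕ} [hr : Fact r.Prime] {ι : Type} [Fintype ι]

/-- roots of elements which are fixed by `U` -/
structure KT (ι E : Type) [Field E] [NumberField E] (U : Subgroup (GF E)) (r : ℕ) where
  D : KJ Empty E r
  b : ι → OO E
  y : ι → OO E
  hy : ∀ i, y i ^ r = b i
  hb : ∀ i, b i ≠ 0
  hU : ∀ u ∈ U, ∀ i, u • b i = b i

variable {U : Subgroup (GF E)}

theorem exists_KT (b : ι → OO E) (hb : ∀ i, b i ≠ 0) (hU : ∀ u ∈ U, ∀ i, u • b i = b i) :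
    ∃ T : KT ι E U r, T.b = b := by
  obtain ⟨D, -⟩ := exists_KJ (E := E) (r := r) (ι := Empty) (fun i => i.elim) (fun i => i.elim)
  choose y hy using fun i => exists_root hr.out.pos (b i)
  exact ⟨⟨D, b, y, hy, hb, hU⟩, rfl⟩

/-- the cyclotomic character -/
noncomputable def cyc (D : KJ Empty E r) : GF E →* (ZMod r)ˣ where
  toFun g := (D.Phi g).a
  map_one' := by rw [map_one]; rfl
  map_mul' g h := by rw [map_mul]; rfl

theorem cyc_val (D : KJ Empty E r) (g : GF E) : ((cyc D g : (ZMod r)ˣ) : ZMod r) = D.chi g := rfl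

namespace KT

variable (T : KT ι E U r)

theorem y_ne (i : ι) : T.y i ≠ 0 := by
  intro h
  have h1 := T.hy i
  rw [h, zero_pow hr.out.ne_zero] at h1
  exact T.hb i h1.symm

theorem ex_kap (g : U) (i : ι) : ∃ t : ZMod r, (g : GF E) • T.y i = T.D.z ^ t.val * T.y i :=
  exists_pow T.D.hz (T.y_ne i) (by rw [← smul_pow', T.hy, T.hU g g.2])

/-- the Kummer cocycle -/
noncomputable def kap (g : U) (i : ι) : ZMod r := (T.ex_kap g i).choose

theorem smul_y (g : U) (i : ι) : (g : GF E) • T.y i = T.D.z ^ (T.kap g i).val * T.y i :=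
  (T.ex_kap g i).choose_spec

theorem kap_unique {g : U} {i : ι} {t : ZMod r} (h : (g : GF E) • T.y i = T.D.z ^ t.val * T.y i) :
    T.kap g i = t := by
  apply pow_unique T.D.hz (T.y_ne i)
  rw [← T.smul_y, h]

theorem kap_mul (g h : U) (i : ι) :
    T.kap (g * h) i = T.kap g i + T.D.chi g * T.kap h i := by
  apply T.kap_unique
  rw [Subgroup.coe_mul, mul_smul, T.smul_y h, smul_mul', T.D.smul_zpow, T.smul_y g,
    val_add T.D.z_pow]
  ring

/-- the homomorphism to the affine group -/
noncomputable def Phi : U →* AffI ι r where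
  toFun g := ⟨cyc T.D g, T.kap g⟩
  map_one' := by
    apply AffI.ext
    · exact map_one (cyc T.D)
    · funext i
      apply T.kap_unique
      rw [Subgroup.coe_one, one_smul, AffI.one_x, Pi.zero_apply, ZMod.val_zero, pow_zero, one_mul]
  map_mul' g h := by
    apply AffI.ext
    · exact map_mul (cyc T.D) _ _
    · funext i
      exact T.kap_mul g h i

theorem Phi_a (u : U) : (T.Phi u).a = cyc T.D u := rfl

theorem Phi_x (u : U) : (T.Phi u).x = T.kap u := rfl

end KT

theorem st_open (w : OO E) : IsOpen (MulAction.stabilizer (GF E) (w : AlgebraicClosure E) :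
    Set (GF E)) := stabilizer_isOpen_of_isIntegral (K := E) (w : AlgebraicClosure E)

/-- the joint kernel is open -/
theorem ker_open {I : Type} [Fintype I] (hUo : IsOpen (U : Set (GF E))) (r : I → ℕ)
    [hr : ∀ i, Fact (r i).Prime] (T : ∀ i, KT ι E U (r i)) :
    IsOpen (((MonoidHom.pi fun i => (T i).Phi).ker.map U.subtype : Subgroup (GF E)) :
      Set (GF E)) := by
  have hopen : IsOpen ((U : Set (GF E)) ∩
      ((⋂ i, (MulAction.stabilizer (GF E) ((T i).D.z : AlgebraicClosure E) : Set (GF E))) ∩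
      ⋂ i, ⋂ j, (MulAction.stabilizer (GF E) ((T i).y j : AlgebraicClosure E) : Set (GF E)))) :=
    hUo.inter ((isOpen_iInter_of_finite fun i => st_open _).inter
      (isOpen_iInter_of_finite fun i => isOpen_iInter_of_finite fun j => st_open _))
  refine Subgroup.isOpen_of_mem_nhds _ (g := 1) (Filter.mem_of_superset
    (hopen.mem_nhds ?_) ?_)
  · refine ⟨U.one_mem, Set.mem_iInter.2 fun i => one_smul _ _, Set.mem_iInter.2 fun i =>
      Set.mem_iInter.2 fun j => one_smul _ _⟩
  · rintro g ⟨h0, h1, h2⟩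
    simp only [Set.mem_iInter] at h1 h2
    refine ⟨⟨g, h0⟩, ?_, rfl⟩
    show (MonoidHom.pi fun i => (T i).Phi) ⟨g, h0⟩ = 1
    funext i
    show (T i).Phi ⟨g, h0⟩ = 1
    have hne : Nontrivial (ZMod (r i)) := inferInstance
    apply AffI.ext
    · apply Units.ext
      show (T i).D.chi g = 1
      apply (T i).D.chi_unique
      rw [ZMod.val_one, pow_one]
      exact RingOfIntegers.ext (h1 i)
    · funext j
      show (T i).kap ⟨g, h0⟩ j = 0
      apply (T i).kap_unique
      rw [ZMod.val_zero, pow_zero, one_mul]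
      exact RingOfIntegers.ext (h2 i j)

/-- **Descent**, general form. -/
theorem descentU (D : KJ Empty E r) {δ : OO E} (hδ : δ ≠ 0) (c : U → ZMod r)
    (hc : ∀ g : U, (g : GF E) • δ = D.z ^ (c g).val * δ)
    (hc1 : ∀ g : U, D.chi g = 1 → c g = 0) :
    ∃ ε : OO E, (∀ u ∈ U, u • ε = ε) ∧ ε ^ r = δ ^ r := by
  by_cases hs : ∃ s : U, D.chi s ≠ 1
  · have hmul : ∀ g h : U, c (g * h) = c g + D.chi g * c h := by
      intro g h
      apply pow_unique D.hz hδ
      rw [← hc, Subgroup.coe_mul, mul_smul, hc h, smul_mul', D.smul_zpow, hc g, val_add D.z_pow]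
      ring
    obtain ⟨s, hs⟩ := hs
    have hcomm : ∀ g h : U, c (g * h) = c (h * g) := by
      intro g h
      have h1 : g * h = (g * h * g⁻¹ * h⁻¹) * (h * g) := by group
      have hx : D.chi ((g * h * g⁻¹ * h⁻¹ : U) : GF E) = 1 := by
        have e1 : D.chi (g : GF E) * D.chi (g : GF E)⁻¹ = 1 := by
          rw [← D.chi_mul, mul_inv_cancel, D.chi_one]
        have e2 : D.chi (h : GF E) * D.chi (h : GF E)⁻¹ = 1 := by
          rw [← D.chi_mul, mul_inv_cancel, D.chi_one]
        rw [Subgroup.coe_mul, Subgroup.coe_mul, Subgroup.coe_mul, Subgroup.coe_inv,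
          Subgroup.coe_inv, D.chi_mul, D.chi_mul, D.chi_mul]
        linear_combination (D.chi (h : GF E) * D.chi (h : GF E)⁻¹) * e1 + e2
      rw [h1, hmul, hx, hc1 _ hx, zero_add, one_mul]
    set t := D.chi (s : GF E) with ht
    have ht1 : t - 1 ≠ 0 := sub_ne_zero.2 hs
    set c0 : ZMod r := c s / (t - 1) with hc0
    have hcg : ∀ g : U, c g = c0 * (D.chi (g : GF E) - 1) := by
      intro g
      have h1 := hcomm g s
      rw [hmul, hmul, ← ht] at h1
      rw [hc0, div_mul_eq_mul_div, eq_div_iff ht1]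
      linear_combination -h1
    refine ⟨D.z ^ (-c0).val * δ, fun u hu => ?_, ?_⟩
    · rw [smul_mul', D.smul_zpow, hc ⟨u, hu⟩, ← mul_assoc, ← val_add D.z_pow, hcg ⟨u, hu⟩]
      congr 2
      ring_nf
    · rw [mul_pow, ← pow_mul, mul_comm _ r, pow_mul, D.z_pow, one_pow, one_mul]
  · push Not at hs
    refine ⟨δ, fun u hu => ?_, rfl⟩
    rw [hc ⟨u, hu⟩, hc1 ⟨u, hu⟩ (hs ⟨u, hu⟩), ZMod.val_zero, pow_zero, one_mul]

/-- every vector is a value of the Kummer cocycle -/
theorem kap_surj (T : KT ι E U r)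
    (hind : ∀ x : ι → ZMod r, (∃ ε : OO E, (∀ u ∈ U, u • ε = ε) ∧
      ε ^ r = ∏ i, T.b i ^ (x i).val) → x = 0)
    (x : ι → ZMod r) : ∃ g : U, T.D.chi g = 1 ∧ T.kap g = x := by
  classical
  have : NeZero r := ⟨hr.out.ne_zero⟩
  have hpow : ∀ g : U, T.D.chi g = 1 → ∀ n : ℕ,
      T.D.chi ((g ^ n : U) : GF E) = 1 ∧ T.kap (g ^ n) = (n : ZMod r) • T.kap g := by
    intro g hg n
    induction n with
    | zero =>
      refine ⟨by rw [pow_zero, Subgroup.coe_one, T.D.chi_one], ?_⟩
      funext i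
      rw [pow_zero, Nat.cast_zero, zero_smul]
      apply T.kap_unique
      rw [Subgroup.coe_one, one_smul, Pi.zero_apply, ZMod.val_zero, pow_zero, one_mul]
    | succ n ih =>
      refine ⟨by rw [pow_succ, Subgroup.coe_mul, T.D.chi_mul, ih.1, hg, one_mul], ?_⟩
      funext i
      rw [pow_succ, T.kap_mul, ih.1, ih.2, one_mul, Nat.cast_succ, add_smul, one_smul]
      rfl
  let V : Submodule (ZMod r) (ι → ZMod r) :=
    { carrier := {x | ∃ g : U, T.D.chi g = 1 ∧ T.kap g = x}
      zero_mem' := ⟨1, by rw [Subgroup.coe_one, T.D.chi_one], by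
        funext i
        apply T.kap_unique
        rw [Subgroup.coe_one, one_smul, Pi.zero_apply, ZMod.val_zero, pow_zero, one_mul]⟩
      add_mem' := by
        rintro _ _ ⟨g, hg, rfl⟩ ⟨h, hh, rfl⟩
        refine ⟨g * h, by rw [Subgroup.coe_mul, T.D.chi_mul, hg, hh, one_mul], ?_⟩
        funext i
        rw [T.kap_mul, hg, one_mul]
        rfl
      smul_mem' := by
        rintro c _ ⟨g, hg, rfl⟩
        obtain ⟨h1, h2⟩ := hpow g hg c.val
        refine ⟨g ^ c.val, h1, ?_⟩
        rw [h2, ZMod.natCast_zmod_val] }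
  have hV : V = ⊤ := by
    by_contra hne
    obtain ⟨f, hf0, hf⟩ := Submodule.exists_le_ker_of_lt_top V (lt_top_iff_ne_top.2 hne)
    set x : ι → ZMod r := fun i => f (Pi.single i 1) with hx
    have hfx : ∀ w : ι → ZMod r, f w = ∑ i, x i * w i := by
      intro w
      conv_lhs => rw [← Finset.univ_sum_single w]
      rw [map_sum]
      refine Finset.sum_congr rfl fun i _ => ?_
      have h1 : (Pi.single i (w i) : ι → ZMod r) = (w i) • (Pi.single i 1 : ι → ZMod r) := by
        rw [← Pi.single_smul, smul_eq_mul, mul_one]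
      rw [h1, map_smul, smul_eq_mul, mul_comm]
    have hδ : ∏ i, T.y i ^ (x i).val ≠ 0 :=
      Finset.prod_ne_zero_iff.2 fun i _ => pow_ne_zero _ (T.y_ne i)
    have hact : ∀ g : U, (g : GF E) • ∏ i, T.y i ^ (x i).val =
        T.D.z ^ (f (T.kap g)).val * ∏ i, T.y i ^ (x i).val := by
      intro g
      rw [hfx]
      have h1 : ∀ s : Finset ι, (g : GF E) • ∏ i ∈ s, T.y i ^ (x i).val =
          T.D.z ^ (∑ i ∈ s, x i * T.kap g i).val * ∏ i ∈ s, T.y i ^ (x i).val := by
        intro s
        induction s using Finset.induction_on with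
        | empty => simp
        | insert i s hi ih =>
          rw [Finset.prod_insert hi, Finset.sum_insert hi, smul_mul', ih, smul_pow', T.smul_y,
            mul_pow, val_add T.D.z_pow, mul_comm (x i), val_mul T.D.z_pow]
          ring
      exact h1 Finset.univ
    obtain ⟨ε, hεU, hε⟩ := descentU T.D hδ (fun g => f (T.kap g)) hact (by
      intro g hg
      exact hf ⟨g, hg, rfl⟩)
    have h2 := hind x ⟨ε, hεU, by
      rw [hε, ← Finset.prod_pow]
      refine Finset.prod_congr rfl fun i _ => ?_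
      rw [← pow_mul, mul_comm, pow_mul, T.hy]⟩
    apply hf0
    apply LinearMap.ext
    intro w
    rw [hfx, h2]
    simp
  have : x ∈ V := by rw [hV]; trivial
  exact this

/-- conjugation of the Kummer cocycle -/
theorem kap_conj (T : KT ι E U r) (m : ℕ) (H : Matrix ι ι ℤ) (g : GF E)
    (hg : ∀ i, ((g • T.b i : OO E) : AlgebraicClosure E) ^ m =
      ∏ k, ((T.b k : OO E) : AlgebraicClosure E) ^ H i k) (u u' : U)
    (hu : T.D.chi u = 1) (huu : (u' : GF E) = g⁻¹ * u * g) (i : ι) :
    (m : ZMod r) * (T.D.chi g * T.kap u' i) = ∑ k, (H i k : ZMod r) * T.kap u k := by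
  classical
  have : NeZero r := ⟨hr.out.ne_zero⟩
  set Z : AlgebraicClosure E := ((T.D.z : OO E) : AlgebraicClosure E) with hZ
  set Y : ι → AlgebraicClosure E := fun k => ((T.y k : OO E) : AlgebraicClosure E) with hY
  have hinj : Function.Injective (fun w : OO E => (w : AlgebraicClosure E)) :=
    fun a b h => RingOfIntegers.ext h
  have hZp : IsPrimitiveRoot Z r :=
    T.D.hz.map_of_injective (f := algebraMap (OO E) (AlgebraicClosure E)) hinj
  have hZ0 : Z ≠ 0 := hZp.ne_zero hr.out.ne_zero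
  have hY0 : ∀ k, Y k ≠ 0 := by
    intro k h
    apply T.y_ne k
    apply hinj
    show Y k = ((0 : OO E) : AlgebraicClosure E)
    rw [h]
    rfl
  have hYr : ∀ k, Y k ^ r = ((T.b k : OO E) : AlgebraicClosure E) := by
    intro k
    rw [← T.hy k]
    rfl
  have hcs : ∀ (s : GF E) (w : OO E), ((s • w : OO E) : AlgebraicClosure E) = s w :=
    fun s w => Pool.Agent.W401.Frob.coe_smul s w
  set A : AlgebraicClosure E := (g (Y i)) ^ m with hA
  set Q : AlgebraicClosure E := ∏ k, Y k ^ H i k with hQ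
  have hQ0 : Q ≠ 0 := Finset.prod_ne_zero_iff.2 fun k _ => zpow_ne_zero _ (hY0 k)
  have hA0 : A ≠ 0 := by
    apply pow_ne_zero
    rw [Ne, map_eq_zero_iff g g.injective]
    exact hY0 i
  have hAr : A ^ r = Q ^ r := by
    rw [hA, hQ, ← pow_mul, mul_comm m r, pow_mul, ← map_pow, hYr i, ← hcs, hg i, ← Finset.prod_pow]
    refine Finset.prod_congr rfl fun k _ => ?_
    rw [← hYr k, ← zpow_natCast, ← zpow_natCast, ← zpow_mul, ← zpow_mul, mul_comm]
  -- the root of unity
  set ζ : AlgebraicClosure E := A / Q with hζ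
  have hζr : ζ ^ r = 1 := by
    rw [hζ, div_pow, hAr, div_self (pow_ne_zero _ hQ0)]
  obtain ⟨n, -, hn⟩ := hZp.eq_pow_of_pow_eq_one hζr
  have huZ : (u : GF E) Z = Z := by
    have h1 := T.D.smul_z (u : GF E)
    rw [hu, ZMod.val_one, pow_one] at h1
    have h2 := congrArg (fun w : OO E => (w : AlgebraicClosure E)) h1
    change ((_ • _ : OO E) : AlgebraicClosure E) = _ at h2
    rw [hcs] at h2
    exact h2
  have huζ : (u : GF E) ζ = ζ := by rw [← hn, map_pow, huZ]
  have hAQ : A = ζ * Q := by rw [hζ, div_mul_cancel₀ _ hQ0]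
  have huY : ∀ k, (u : GF E) (Y k) = Z ^ (T.kap u k).val * Y k := by
    intro k
    have h2 := congrArg (fun w : OO E => (w : AlgebraicClosure E)) (T.smul_y u k)
    change ((_ • _ : OO E) : AlgebraicClosure E) = _ at h2
    rw [hcs] at h2
    rw [h2]
    simp [hZ, hY]
  have huY' : ∀ k, (u' : GF E) (Y k) = Z ^ (T.kap u' k).val * Y k := by
    intro k
    have h2 := congrArg (fun w : OO E => (w : AlgebraicClosure E)) (T.smul_y u' k)
    change ((_ • _ : OO E) : AlgebraicClosure E) = _ at h2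
    rw [hcs] at h2
    rw [h2]
    simp [hZ, hY]
  have hgZ : g Z = Z ^ (T.D.chi g).val := by
    have h2 := congrArg (fun w : OO E => (w : AlgebraicClosure E)) (T.D.smul_z g)
    change ((_ • _ : OO E) : AlgebraicClosure E) = _ at h2
    rw [hcs] at h2
    rw [h2]
    simp [hZ]
  have h1 : (u : GF E) A = Z ^ (((T.D.chi g).val * (T.kap u' i).val * m : ℕ) : ℤ) * A := by
    have e1 : (u : GF E) (g (Y i)) = g ((u' : GF E) (Y i)) := by
      rw [huu]
      show _ = g (g⁻¹ ((u : GF E) (g (Y i))))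
      exact (g.apply_symm_apply _).symm
    rw [hA, map_pow, e1, huY', map_mul, map_pow, hgZ, mul_pow, zpow_natCast, pow_mul, pow_mul]
  have h2 : (u : GF E) A = Z ^ (∑ k, ((T.kap u k).val : ℤ) * H i k) * A := by
    have e2 : (u : GF E) Q = Z ^ (∑ k, ((T.kap u k).val : ℤ) * H i k) * Q := by
      have e3 : ∀ s : Finset ι, (u : GF E) (∏ k ∈ s, Y k ^ H i k) =
          Z ^ (∑ k ∈ s, ((T.kap u k).val : ℤ) * H i k) * ∏ k ∈ s, Y k ^ H i k := by
        intro s
        induction s using Finset.induction_on with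
        | empty => simp
        | insert k s hk ih =>
          rw [Finset.prod_insert hk, Finset.sum_insert hk, map_mul, ih, map_zpow₀, huY,
            mul_zpow, zpow_add₀ hZ0, zpow_mul, zpow_natCast]
          ring
      exact e3 Finset.univ
    rw [hAQ, map_mul, huζ, e2]
    ring
  have h3 : Z ^ ((((T.D.chi g).val * (T.kap u' i).val * m : ℕ) : ℤ) -
      ∑ k, ((T.kap u k).val : ℤ) * H i k) = 1 := by
    rw [zpow_sub₀ hZ0, mul_right_cancel₀ hA0 (h1.symm.trans h2), div_self (zpow_ne_zero _ hZ0)]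
  have h4 := (hZp.zpow_eq_one_iff_dvd _).1 h3
  rw [← ZMod.intCast_zmod_eq_zero_iff_dvd] at h4
  push_cast at h4
  rw [ZMod.natCast_zmod_val, ZMod.natCast_zmod_val, sub_eq_zero] at h4
  rw [mul_comm, h4]
  refine Finset.sum_congr rfl fun k _ => ?_
  rw [ZMod.natCast_zmod_val, mul_comm]

end one

end Pool.Agent.H401.TH.TDens
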