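import Pool.Agent.H500.KumI
import Pool.Agent.H500.KumCyc

set_option autoImplicit false
set_option linter.unusedSectionVars false

/-!
# Cyclotomic characters on an open subgroup; counting classes (helper401, for project TH of helper500)
-/

namespace Pool.Agent.H401.TH.TDens

open NumberField IsDedekindDomain Filter Topology
open Pool.Agent.W569.FM (OO GF)
open Pool.Agent.H500.Kum (cyc_surj)

/-- the cyclotomic characters are surjective on an open normal subgroup away from a discriminant -/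
theorem cyc_surjU {E : Type} [Field E] [NumberField E] (U : Subgroup (GF E)) (hUn : U.Normal)
    (hUo : IsOpen (U : Set (GF E))) : ∃ d : ℕ, 0 < d ∧ ∀ M : ℕ, 0 < M →
      IsCoprime (M : ℤ) (d : ℤ) → ∀ a : ℕ, a.Coprime M →
      ∃ g ∈ U, ∀ z : AlgebraicClosure E, z ^ M = 1 → g z = z ^ a := by
  have hcl : IsClosed (U : Set (GF E)) := Subgroup.isClosed_of_isOpen U hUo
  have hfix : (IntermediateField.fixedField (U : Subgroup (GF E))).fixingSubgroup = U :=
    InfiniteGalois.fixingSubgroup_fixedField ⟨U, hcl⟩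
  set L := IntermediateField.fixedField (U : Subgroup (GF E)) with hL
  have hfd : FiniteDimensional E L := by
    rw [← InfiniteGalois.isOpen_iff_finite, hfix]
    exact hUo
  have hnf : NumberField L := NumberField.of_module_finite E L
  have hac : IsAlgClosure L (AlgebraicClosure E) :=
    ⟨inferInstance, Algebra.IsAlgebraic.tower_top (K := E) L⟩
  let e : AlgebraicClosure L ≃ₐ[L] AlgebraicClosure E :=
    IsAlgClosure.equiv L (AlgebraicClosure L) (AlgebraicClosure E)
  refine ⟨(discr L).natAbs, Int.natAbs_pos.2 (discr_ne_zero L), fun M hM hco a ha => ?_⟩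
  have hco' : IsCoprime (M : ℤ) (discr L) := by
    rw [Int.isCoprime_iff_nat_coprime, Int.natAbs_natCast] at hco ⊢
    rwa [Int.natAbs_natCast] at hco
  obtain ⟨σ, hσ⟩ := cyc_surj hM hco' ha
  refine ⟨((e.symm.trans σ).trans e).restrictScalars E, ?_, fun z hz => ?_⟩
  · rw [← hfix, IntermediateField.mem_fixingSubgroup_iff]
    intro x hx
    show e (σ (e.symm x)) = x
    have h1 : e.symm x = algebraMap L (AlgebraicClosure L) ⟨x, hx⟩ := e.symm.commutes ⟨x, hx⟩
    rw [h1, σ.commutes, e.commutes]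
    rfl
  · show e (σ (e.symm z)) = z ^ a
    rw [hσ (e.symm z) (by rw [← map_pow, hz, map_one]), ← map_pow, e.apply_symm_apply]

/-- counting classes modulo a smaller subgroup -/
theorem ncard_le_of_le {G : Type} [Group G] {s t : Subgroup G} (h : s ≤ t) [Finite (G ⧸ s)]
    (C : Set G) : ((QuotientGroup.mk : G → G ⧸ s) '' C).ncard ≤
      ((QuotientGroup.mk : G → G ⧸ t) '' C).ncard * s.relIndex t := by
  classical
  let e := Subgroup.quotientEquivProdOfLE h
  have hfin : Finite ((G ⧸ t) × (t ⧸ s.subgroupOf t)) := Finite.of_equiv _ e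
  have hf1 : Finite (t ⧸ s.subgroupOf t) := Finite.of_surjective
    (fun p : (G ⧸ t) × (t ⧸ s.subgroupOf t) => p.2) fun x => ⟨(QuotientGroup.mk 1, x), rfl⟩
  have h1 : (e '' ((QuotientGroup.mk : G → G ⧸ s) '' C)) ⊆
      ((QuotientGroup.mk : G → G ⧸ t) '' C) ×ˢ (Set.univ : Set (t ⧸ s.subgroupOf t)) := by
    rintro _ ⟨_, ⟨c, hc, rfl⟩, rfl⟩
    exact ⟨⟨c, hc, rfl⟩, trivial⟩
  have h2 := Set.ncard_le_ncard h1 (Set.toFinite _)
  rw [Set.ncard_image_of_injective _ e.injective, Set.ncard_prod, Set.ncard_univ] at h2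
  exact h2

/-- counting classes of the conjugates of a set which is stable under conjugation by `U` -/
theorem ncard_conj_le {G : Type} [Group G] (U N : Subgroup G) [N.Normal] [Finite (G ⧸ N)]
    [Finite (G ⧸ U)] (C : Set G) (hC : ∀ c ∈ C, ∀ u ∈ U, u * c * u⁻¹ ∈ C) :
    ((QuotientGroup.mk : G → G ⧸ N) '' {g | ∃ τ : G, ∃ c ∈ C, g = τ * c * τ⁻¹}).ncard ≤
      U.index * ((QuotientGroup.mk : G → G ⧸ N) '' C).ncard := by
  classical
  let F : (G ⧸ U) × (G ⧸ N) → G ⧸ N := fun p =>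
    (QuotientGroup.mk (Quotient.out p.1) : G ⧸ N) * p.2 * (QuotientGroup.mk (Quotient.out p.1))⁻¹
  have h1 : ((QuotientGroup.mk : G → G ⧸ N) '' {g | ∃ τ : G, ∃ c ∈ C, g = τ * c * τ⁻¹}) ⊆
      F '' ((Set.univ : Set (G ⧸ U)) ×ˢ ((QuotientGroup.mk : G → G ⧸ N) '' C)) := by
    rintro _ ⟨_, ⟨τ, c, hc, rfl⟩, rfl⟩
    obtain ⟨u, hu⟩ := QuotientGroup.mk_out_eq_mul U τ
    refine ⟨(QuotientGroup.mk τ, QuotientGroup.mk ((u : G)⁻¹ * c * (u : G)⁻¹⁻¹)), ⟨trivial,
      _, hC c hc _ (U.inv_mem u.2), rfl⟩, ?_⟩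
    show (QuotientGroup.mk (Quotient.out (QuotientGroup.mk τ : G ⧸ U)) : G ⧸ N) *
      QuotientGroup.mk ((u : G)⁻¹ * c * (u : G)⁻¹⁻¹) *
      (QuotientGroup.mk (Quotient.out (QuotientGroup.mk τ : G ⧸ U)))⁻¹ = _
    rw [hu, ← QuotientGroup.mk_inv, ← QuotientGroup.mk_mul, ← QuotientGroup.mk_mul]
    congr 1
    group
  calc _ ≤ (F '' ((Set.univ : Set (G ⧸ U)) ×ˢ ((QuotientGroup.mk : G → G ⧸ N) '' C))).ncard :=
        Set.ncard_le_ncard h1 (Set.toFinite _)
    _ ≤ _ := Set.ncard_image_le (Set.toFinite _)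
    _ = _ := by
        rw [Set.ncard_prod, Set.ncard_univ]
        rfl

/-- an element of given order of a finite cyclic group -/
theorem exists_order {p g : ℕ} [hp : Fact p.Prime] (hg : g ∣ p - 1) (hg0 : 0 < g) :
    ∃ w : (ZMod p)ˣ, orderOf w = g := by
  obtain ⟨ζ, hζ⟩ := IsCyclic.exists_generator (α := (ZMod p)ˣ)
  have h1 : orderOf ζ = p - 1 := by
    rw [orderOf_eq_card_of_forall_mem_zpowers hζ, Nat.card_eq_fintype_card,
      ZMod.card_units_eq_totient, Nat.totient_prime hp.out]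
  obtain ⟨k, hk⟩ := hg
  have hp1 : 0 < p - 1 := by have := hp.out.two_le; omega
  have hk0 : 0 < k := Nat.pos_of_ne_zero (by rintro rfl; rw [mul_zero] at hk; omega)
  refine ⟨ζ ^ k, ?_⟩
  rw [orderOf_pow_of_dvd hk0.ne' (by rw [h1, hk]; exact Dvd.intro_left g rfl), h1, hk,
    Nat.mul_div_cancel _ hk0]

end Pool.Agent.H401.TH.TDens
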