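import Pool.Agent.H500.TH.Stm
import Pool.Agent.H401.TH.TDensA
import Pool.Agent.H401.TH.TDensB

set_option autoImplicit false
set_option linter.unusedSectionVars false

/-!
# TH A3: twisted Kummer density (helper401, for project TH of helper500)

After `Pool/Agent/H215/HC/DensF.lean`.
-/

namespace Pool.Agent.H401.TH.TDens

open NumberField IsDedekindDomain Filter Topology
open Pool.Agent.W401.Cheb (GK IsFrob dens)
open Pool.Agent.W569.FM (OO GF)
open Pool.Agent.H500.Kum (val_add val_mul exists_pow pow_unique exists_root exists_prim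
  dens_fin fin_mem exists_idem)
open Pool.Agent.H500.KumI (AffI KJ exists_KJ)
open Pool.Agent.H500.TH

/-- the cyclotomic characters are jointly surjective on `U` -/
theorem chi_surjU {E I : Type} [Field E] [NumberField E] [Fintype I] (U : Subgroup (GF E))
    (r : I → ℕ) [hr : ∀ i, Fact (r i).Prime] (hinj : Function.Injective r) {d : ℕ}
    (hd0 : 0 < d) (hd : ∀ M : ℕ, 0 < M →
      IsCoprime (M : ℤ) (d : ℤ) → ∀ a : ℕ, a.Coprime M →
      ∃ g ∈ U, ∀ z : AlgebraicClosure E, z ^ M = 1 → g z = z ^ a)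
    (hdis : ∀ i, d < r i) (D : ∀ i, KJ Empty E (r i)) (t : (i : I) → (ZMod (r i))ˣ) :
    ∃ u : U, ∀ i, cyc (D i) u = t i := by
  classical
  choose e he1 he2 using exists_idem r hinj
  set a : ℕ := ∑ i, e i * (t i : ZMod (r i)).val with ha
  have hai : ∀ i, (a : ZMod (r i)) = t i := by
    intro i
    rw [ha]
    push_cast
    rw [Finset.sum_eq_single i]
    · rw [he1, one_mul, ZMod.natCast_zmod_val]
    · intro j _ hj
      rw [he2 j i hj.symm, zero_mul]
    · intro h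
      exact absurd (Finset.mem_univ i) h
  set M : ℕ := ∏ i, r i with hM
  have hM0 : 0 < M := Finset.prod_pos fun i _ => (hr i).out.pos
  have hcop : IsCoprime (M : ℤ) (d : ℤ) := by
    rw [hM]
    push_cast
    apply IsCoprime.prod_left
    intro i _
    refine (Prime.coprime_iff_not_dvd (Nat.prime_iff_prime_int.1 (hr i).out)).2 fun h => ?_
    have h1 := Nat.le_of_dvd hd0 (Int.natCast_dvd_natCast.1 h)
    have h2 := hdis i
    omega
  have haM : a.Coprime M := by
    rw [hM]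
    apply Nat.Coprime.prod_right
    intro i _
    rw [Nat.coprime_comm, (hr i).out.coprime_iff_not_dvd, ← ZMod.natCast_eq_zero_iff, hai]
    exact (t i).ne_zero
  obtain ⟨g, hgU, hg⟩ := hd M hM0 hcop a haM
  refine ⟨⟨g, hgU⟩, fun i => ?_⟩
  apply Units.ext
  show (D i).chi g = t i
  apply (D i).chi_unique
  apply RingOfIntegers.ext
  have hzM : ((D i).z : AlgebraicClosure E) ^ M = 1 := by
    obtain ⟨k, hk⟩ : r i ∣ M := Finset.dvd_prod_of_mem _ (Finset.mem_univ i)
    rw [hk, pow_mul]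
    have h1 : ((D i).z : AlgebraicClosure E) ^ r i = 1 := by
      have := congrArg (fun w : OO E => (w : AlgebraicClosure E)) (D i).z_pow
      simpa using this
    rw [h1, one_pow]
  have h2 := hg _ hzM
  have h3 : ((D i).z) ^ (t i : ZMod (r i)).val = (D i).z ^ a := by
    rw [← hai i, ZMod.val_natCast]
    exact (pow_eq_pow_mod _ (D i).z_pow).symm
  rw [h3]
  rw [Pool.Agent.W401.Frob.coe_smul]
  rw [h2]
  simp

/-- the part of `B` which is invariant under the homotheties -/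
def BB {ι : Type} {r : ℕ} (B : Set (ι → ZMod r)) : Set (ι → ZMod r) :=
  {x | ∀ c : (ZMod r)ˣ, (c : ZMod r) • x ∈ B}

theorem BB_smul {ι : Type} {r : ℕ} {B : Set (ι → ZMod r)} {x : ι → ZMod r} (hx : x ∈ BB B)
    (c : (ZMod r)ˣ) : (c : ZMod r) • x ∈ BB B := by
  intro d
  rw [smul_smul, ← Units.val_mul]
  exact hx (d * c)

theorem BB_sub {ι : Type} {r : ℕ} {B : Set (ι → ZMod r)} {x : ι → ZMod r} (hx : x ∈ BB B) :
    x ∈ B := by
  have := hx 1
  rwa [Units.val_one, one_smul] at this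

section mat

variable {ι : Type} [Fintype ι] [DecidableEq ι] {r : ℕ} [hr : Fact r.Prime]

/-- the matrix `H / m` -/
noncomputable def Hm (m : ℕ) (H : Matrix ι ι ℤ) (r : ℕ) [Fact r.Prime] : Matrix ι ι (ZMod r) :=
  (m : ZMod r)⁻¹ • H.map (Int.castRingHom (ZMod r))

theorem Hm_pow {m f : ℕ} (H : Matrix ι ι ℤ) (hm : (m : ZMod r) ≠ 0)
    (hH : H ^ f = (m : ℤ) ^ f • (1 : Matrix ι ι ℤ)) : Hm m H r ^ f = 1 := by
  have h1 : H.map (Int.castRingHom (ZMod r)) ^ f = (m : ZMod r) ^ f • 1 := by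
    have h2 := congrArg ((Int.castRingHom (ZMod r)).mapMatrix (m := ι)) hH
    rw [map_pow] at h2
    rw [← RingHom.mapMatrix_apply, h2]
    ext i j
    rw [RingHom.mapMatrix_apply, Matrix.map_apply, Matrix.smul_apply, Matrix.smul_apply,
      Matrix.one_apply, Matrix.one_apply]
    split_ifs <;> simp
  rw [Hm, smul_pow, h1, smul_smul, inv_pow, inv_mul_cancel₀ (pow_ne_zero _ hm), one_smul]

theorem mulVec_eq {m : ℕ} (H : Matrix ι ι ℤ) (hm : (m : ZMod r) ≠ 0) (x y : ι → ZMod r) :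
    (Hm m H r).mulVec x = y ↔ ∀ i, (m : ZMod r) * y i = ∑ k, (H i k : ZMod r) * x k := by
  have h1 : ∀ i, (Hm m H r).mulVec x i = (m : ZMod r)⁻¹ * ∑ k, (H i k : ZMod r) * x k := by
    intro i
    rw [Hm, Matrix.smul_mulVec, Pi.smul_apply, smul_eq_mul]
    rfl
  constructor
  · rintro rfl i
    rw [h1, mul_inv_cancel_left₀ hm]
  · intro h
    funext i
    rw [h1, ← h i, inv_mul_cancel_left₀ hm]

end mat

theorem main : S_TRatio → S_Div → S_TDens := by
  intro hratio hdiv E ι _ _ _ _ b U γ f g m r0 H B hb hUn hUo hf hγ hm hgf hH hbU hbγ hind hB P hP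
  classical
  have hg0 : 0 < g := Nat.pos_of_dvd_of_pos hgf hf
  rw [Metric.tendsto_atTop]
  intro ε hε
  obtain ⟨d, hd0, hd⟩ := cyc_surjU U hUn hUo
  set M0 := r0 + d + m + f + 2 with hM0
  obtain ⟨R, hR, hRε⟩ := hdiv g M0 ε hg0 hε
  set r : R → ℕ := fun i => i.1 with hrdef
  have hrp : ∀ i, Fact (r i).Prime := fun i => ⟨(hR i.1 i.2).1⟩
  have hrm : ∀ i, M0 < r i := fun i => (hR i.1 i.2).2.1
  have hrg : ∀ i, g ∣ r i - 1 := fun i => (hR i.1 i.2).2.2
  have hinj : Function.Injective r := Subtype.coe_injective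
  have hw : ∀ i, ∃ w : (ZMod (r i))ˣ, orderOf w = g := fun i => exists_order (hrg i) hg0
  choose w hw using hw
  have hT : ∀ i, ∃ T : KT ι E U (r i), T.b = b := fun i => exists_KT b hb hbU
  choose T hTb using hT
  have hm0 : ∀ i, (m : ZMod (r i)) ≠ 0 := by
    intro i h
    rw [ZMod.natCast_eq_zero_iff] at h
    have h1 := Nat.le_of_dvd hm h
    have h2 := hrm i
    omega
  set Φ : ∀ i, U →* AffI ι (r i) := fun i => (T i).Phi with hΦ
  set c : ∀ i, GF E →* (ZMod (r i))ˣ := fun i => cyc (T i).D with hc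
  set BBi : ∀ i, Set (ι → ZMod (r i)) := fun i => BB (B (r i) (w i)) with hBBi
  set C0 : Set (GF E) := {σ | γ⁻¹ * σ ∈ U ∧
    ∀ i, c i σ = w i → ∀ u : U, (u : GF E) = σ ^ f → (Φ i u).x ∈ BBi i} with hC0
  have hle := hratio R ι r (GF E) U γ f c Φ (fun i => Hm m H (r i)) w BBi hUn hf hγ hinj
    (fun i => ⟨by have := hrm i; omega, fun h => by
      have h1 := Nat.le_of_dvd hf h
      have h2 := hrm i
      omega⟩)
    (fun i u => rfl)
    (fun t => chi_surjU U r hinj hd0 hd (fun i => by have := hrm i; omega) (fun i => (T i).D) t)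
    (fun i x => by
      obtain ⟨u, hu1, hu2⟩ := kap_surj (T i) (by
        rw [hTb]
        exact hind (r i) (hrp i).out (by have := hrm i; omega)) x
      exact ⟨u, Units.ext hu1, hu2⟩)
    (fun i g hg u u' hu huu => by
      rw [eq_comm, mulVec_eq H (hm0 i)]
      intro j
      rw [Pi.smul_apply, smul_eq_mul]
      exact kap_conj (T i) m H g (fun j => by rw [hTb]; exact hbγ g hg j) u u'
        (congrArg Units.val hu) huu j)
    (fun i => ⟨Hm_pow H (hm0 i) hH, by
      obtain ⟨k, hk⟩ := hgf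
      rw [hk, pow_mul, ← hw i, pow_orderOf_eq_one, one_pow]⟩)
    (fun i => by
      have hE : ∀ x : ι → ZMod (r i), (Hm m H (r i)).mulVec x = ((w i : (ZMod (r i))ˣ) :
          ZMod (r i)) • x ↔ EigV m H ((w i : (ZMod (r i))ˣ) : ZMod (r i)) x := by
        intro x
        rw [mulVec_eq H (hm0 i)]
        refine forall_congr' fun j => ?_
        rw [Pi.smul_apply, smul_eq_mul, mul_assoc]
      have hNZ : NeZero (r i) := ⟨(hrp i).out.ne_zero⟩
      simp only [hE]
      refine le_trans ?_ (hB (r i) (hrp i).out (by have := hrm i; omega) (w i) (by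
        rw [orderOf_units, hw i]))
      refine Nat.mul_le_mul_left 2 (Set.ncard_le_ncard ?_ (Set.toFinite _))
      rintro x ⟨hx1, hx2⟩
      exact ⟨BB_sub hx1, hx2⟩)
  -- the subgroups
  have hNo := ker_open hUo r T
  set N : Subgroup (GF E) := (MonoidHom.pi Φ).ker.map U.subtype with hN
  have hfN : Finite (GF E ⧸ N) := Subgroup.quotient_finite_of_isOpen N hNo
  have hfU : Finite (GF E ⧸ U) := Subgroup.quotient_finite_of_isOpen U hUo
  have hFN : N.FiniteIndex := Subgroup.finiteIndex_of_finite_quotient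
  set N' : Subgroup (GF E) := N.normalCore with hN'
  have hFN' : N'.FiniteIndex := Subgroup.finiteIndex_normalCore N
  have hN'c : IsClosed (N' : Set (GF E)) :=
    Subgroup.normalCore_isClosed N (Subgroup.isClosed_of_isOpen N hNo)
  have hN'o : IsOpen (N' : Set (GF E)) := Subgroup.isOpen_of_isClosed_of_finiteIndex N' hN'c
  have hfN' : Finite (GF E ⧸ N') := Subgroup.quotient_finite_of_isOpen N' hN'o
  have hN'N : N' ≤ N := Subgroup.normalCore_le N
  have hNker : ∀ n ∈ N, ∃ u : U, (u : GF E) = n ∧ ∀ i, Φ i u = 1 := by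
    rintro _ ⟨u, hu, rfl⟩
    exact ⟨u, rfl, fun i => congrFun hu i⟩
  have hN'U : N' ≤ U := by
    intro n hn
    obtain ⟨u, rfl, -⟩ := hNker n (hN'N hn)
    exact u.2
  set C : Set (GF E) := {g | ∃ τ : GF E, ∃ s ∈ C0, g = τ * s * τ⁻¹} with hC
  have hC0n : ∀ s ∈ C0, ∀ n ∈ N', s * n ∈ C0 := by
    rintro s ⟨hs1, hs2⟩ n hn
    refine ⟨by rw [← mul_assoc]; exact U.mul_mem hs1 (hN'U hn), fun i hi u hu => ?_⟩
    -- `(s n)^f = s^f n'`
    have h1 : (s ^ f)⁻¹ * (s * n) ^ f ∈ N' := by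
      rw [← QuotientGroup.eq, QuotientGroup.mk_pow, QuotientGroup.mk_pow,
        (QuotientGroup.eq (s := N')).2 (show s⁻¹ * (s * n) ∈ N' by rwa [inv_mul_cancel_left])]
    obtain ⟨v, hv1, hv2⟩ := hNker _ (hN'N h1)
    have h2 : s ^ f ∈ U := by
      have h3 : s ^ f = u * (v : GF E)⁻¹ := by
        rw [hu, hv1]
        group
      rw [h3]
      exact U.mul_mem u.2 (U.inv_mem v.2)
    have h4 : u = ⟨s ^ f, h2⟩ * v := by
      apply Subtype.ext
      rw [Subgroup.coe_mul, hv1, hu]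
      group
    rw [h4, map_mul, hv2 i, mul_one]
    refine hs2 i ?_ ⟨s ^ f, h2⟩ rfl
    rw [← hi, map_mul]
    obtain ⟨n', hn1, hn2⟩ := hNker n (hN'N hn)
    have h5 : c i n = 1 := by
      rw [← hn1]
      exact congrArg AffI.a (hn2 i)
    rw [h5, mul_one]
  have hC0u : ∀ s ∈ C0, ∀ u ∈ U, u * s * u⁻¹ ∈ C0 := by
    rintro s ⟨hs1, hs2⟩ u hu
    refine ⟨?_, fun i hi v hv => ?_⟩
    · have h1 : γ⁻¹ * (u * s * u⁻¹) = (γ⁻¹ * u * γ⁻¹⁻¹) * (γ⁻¹ * s) * u⁻¹ := by group
      rw [h1]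
      exact U.mul_mem (U.mul_mem (hUn.conj_mem u hu γ⁻¹) hs1) (U.inv_mem hu)
    · have h1 : (v : GF E) = u * s ^ f * u⁻¹ := by rw [hv, conj_pow]
      have h2 : s ^ f ∈ U := by
        have h3 : s ^ f = u⁻¹ * v * u := by rw [h1]; group
        rw [h3]
        exact U.mul_mem (U.mul_mem (U.inv_mem hu) v.2) hu
      have h4 : v = ⟨u, hu⟩ * ⟨s ^ f, h2⟩ * ⟨u, hu⟩⁻¹ := Subtype.ext h1
      have hcs : c i s = w i := by
        rw [← hi, map_mul, map_mul, map_inv, mul_comm (c i u), mul_inv_cancel_right]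
      have h5 := hs2 i hcs ⟨s ^ f, h2⟩ rfl
      have h6 : (Φ i ⟨s ^ f, h2⟩).a = 1 := by
        show c i (s ^ f) = 1
        obtain ⟨k, hk⟩ := hgf
        rw [map_pow, hcs, hk, pow_mul, ← hw i, pow_orderOf_eq_one, one_pow]
      rw [h4, map_mul, map_mul, map_inv]
      set A := Φ i ⟨u, hu⟩ with hA
      set S := Φ i ⟨s ^ f, h2⟩ with hS
      have h7 : (A * S * A⁻¹).x = (A.a : ZMod (r i)) • S.x := by
        rw [AffI.mul_x, AffI.mul_x, AffI.mul_a, AffI.inv_x, h6, mul_one, smul_neg, smul_smul,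
          Units.mul_inv, one_smul]
        abel
      rw [h7]
      exact BB_smul h5 _
  have hlim := Pool.Agent.W528.Ord.chebK E N' hN'o C (by
    rintro _ ⟨τ, s, hs, rfl⟩ τ'
    exact ⟨τ' * τ, s, hs, by group⟩) (by
    rintro _ ⟨τ, s, hs, rfl⟩ n hn
    refine ⟨τ, s * (τ⁻¹ * n * τ⁻¹⁻¹), hC0n s hs _ ((Subgroup.normalCore_normal N).conj_mem n hn τ⁻¹),
      by group⟩)
  -- the bound of the density
  have hbound : (((QuotientGroup.mk : GF E → GF E ⧸ N') '' C).ncard : ℝ) /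
      (Nat.card (GF E ⧸ N') : ℝ) ≤ ∏ i, (1 - 1 / (2 * (r i : ℝ))) := by
    have h1 := ncard_conj_le U N' C0 hC0u
    have h2 := ncard_le_of_le hN'N C0
    have h3 : N'.relIndex N * N.index = Nat.card (GF E ⧸ N') :=
      Subgroup.relIndex_mul_index hN'N
    have h4 : N.index = (MonoidHom.pi Φ).ker.index * U.index :=
      Subgroup.index_map_subtype (MonoidHom.pi Φ).ker
    have hpos : (0 : ℝ) < (Nat.card (GF E ⧸ N') : ℝ) := by exact_mod_cast Nat.card_pos
    rw [div_le_iff₀ hpos]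
    have h5 : (((QuotientGroup.mk : GF E → GF E ⧸ N') '' C).ncard : ℝ) ≤
        (U.index : ℝ) * ((((QuotientGroup.mk : GF E → GF E ⧸ N) '' C0).ncard : ℝ) *
          (N'.relIndex N : ℝ)) := by
      have h6 := h1.trans (Nat.mul_le_mul_left U.index h2)
      exact_mod_cast h6
    refine h5.trans ?_
    rw [← h3, h4]
    push_cast
    have h7 : (0 : ℝ) ≤ (U.index : ℝ) * (N'.relIndex N : ℝ) := by positivity
    have h8 := mul_le_mul_of_nonneg_left hle h7
    have h9 : (Nat.card (U ⧸ (MonoidHom.pi Φ).ker) : ℝ) = ((MonoidHom.pi Φ).ker.index : ℝ) := rfl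
    rw [h9] at h8
    calc _ = (U.index : ℝ) * (N'.relIndex N : ℝ) *
          (((QuotientGroup.mk : GF E → GF E ⧸ N) '' C0).ncard : ℝ) := by ring
      _ ≤ _ := h8
      _ = _ := by ring
  have hprod : ∏ i, (1 - 1 / (2 * (r i : ℝ))) = ∏ x ∈ R, (1 - 1 / (2 * (x : ℝ))) :=
    Finset.prod_coe_sort R (fun x => 1 - 1 / (2 * (x : ℝ)))
  -- the exceptional primes
  set X : HeightOneSpectrum (𝓞 E) → Prop := fun v => ∃ i : R, ((r i : ℕ) : 𝓞 E) ∈ v.asIdeal with hX
  have hXfin : {v | X v}.Finite := by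
    have h1 : {v | X v} = (⋃ i : R, {v : HeightOneSpectrum (𝓞 E) | ((r i : ℕ) : 𝓞 E) ∈ v.asIdeal}) := by
      ext v
      simp only [hX, Set.mem_iUnion, Set.mem_ofPred_eq]
    rw [h1]
    exact Set.finite_iUnion fun i => fin_mem (Nat.cast_ne_zero.2 (hrp i).out.ne_zero)
  have hXd := dens_fin X hXfin
  have hsub : ∀ v, P v → (∃ σ ∈ C, IsFrob v σ) ∨ X v := by
    intro v hv
    by_cases hXv : X v
    · exact Or.inr hXv
    · left
      rw [hX] at hXv
      push Not at hXv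
      obtain ⟨σ, hσ, hσγ, hσP⟩ := hP v hv
      refine ⟨σ, ⟨1, σ, ⟨hσγ, fun i hi u hu => ?_⟩, by group⟩, hσ⟩
      intro t
      have hz' : IsPrimitiveRoot ((T i).D.z ^ ((t⁻¹ : (ZMod (r i))ˣ) : ZMod (r i)).val) (r i) := by
        apply (T i).D.hz.pow_of_coprime
        exact ZMod.val_coe_unit_coprime t⁻¹
      refine hσP (r i) (hrp i).out (by have := hrm i; omega) (hXv i) _ (T i).y (w i)
        ((t : ZMod (r i)) • (Φ i u).x) hz' (fun j => by rw [(T i).hy, hTb]) ?_ (by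
          rw [orderOf_units, hw i]) fun j => ?_
      · rw [smul_pow', (T i).D.smul_z]
        have e1 : (T i).D.chi σ = w i := congrArg Units.val hi
        rw [e1, ← pow_mul, ← pow_mul, mul_comm]
      · have e1 : ((T i).D.z ^ ((t⁻¹ : (ZMod (r i))ˣ) : ZMod (r i)).val) ^
            (((t : ZMod (r i)) • (Φ i u).x) j).val = (T i).D.z ^ ((T i).kap u j).val := by
          rw [← val_mul (T i).D.z_pow]
          congr 2
          show ((t⁻¹ : (ZMod (r i))ˣ) : ZMod (r i)) * ((t : ZMod (r i)) * (T i).kap u j) = _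
          rw [← mul_assoc, Units.inv_mul, one_mul]
        rw [e1, ← (T i).smul_y, hu]
  have hsum := hlim.add hXd
  rw [add_zero] at hsum
  have hlt := (hbound.trans hprod.le).trans_lt hRε
  have hev := hsum.eventually (gt_mem_nhds hlt)
  rw [eventually_atTop] at hev
  obtain ⟨N0, hN0⟩ := hev
  refine ⟨N0, fun n hn => ?_⟩
  rw [Real.dist_eq, sub_zero, abs_of_nonneg (Pool.Agent.W528.Ord.dens_nonneg _ _)]
  calc dens P n ≤ dens (fun v => (∃ σ ∈ C, IsFrob v σ) ∨ X v) n :=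
        Pool.Agent.W528.Ord.dens_mono hsub n
    _ ≤ _ := Pool.Agent.W528.Ord.dens_or _ _ n
    _ < ε := hN0 n hn

end Pool.Agent.H401.TH.TDens
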